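import Pool.Agent.Lib.helper10.Kit
import Pool.Agent.Lib.helper10.Sat3

namespace Pool.Agent.Results.MP_722fe9_lc.NPHard

open Pool.Agent.Cx Pool.Agent.Cis

/-- locating-dominating set -/
def LD {V : Type} (G : SimpleGraph V) (D : Set V) : Prop :=
  (∀ v ∉ D, ∃ d ∈ D, G.Adj v d) ∧
    ∀ u ∉ D, ∀ v ∉ D, u ≠ v → G.neighborSet u ∩ D ≠ G.neighborSet v ∩ D

/-- `C_L(G) ≥ k`: an LDC-partition into `m ≥ k` nonempty parts, the fibres of `c` -/
def CL {V : Type} (G : SimpleGraph V) (k : ℕ) : Prop :=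
  ∃ m, k ≤ m ∧ ∃ c : V → Fin m, c.Surjective ∧
    ∀ i, ¬ LD G (c ⁻¹' {i}) ∧ ∃ j, j ≠ i ∧ LD G (c ⁻¹' {i} ∪ c ⁻¹' {j})

/-- `M` is the adjacency matrix of a connected graph with `C_L ≥ k` -/
def LDC (M : List (List Bool)) (k : ℕ) : Prop :=
  IsGraph M ∧ (graphOf M).Connected ∧ CL (graphOf M) k

abbrev T := ℕ × ℕ × ℕ

def rel (I : ℕ → ℕ → Prop) (p q : T) : Prop :=
  (p.1 = q.1 ∧ 1 ≤ p.1 ∧ p.1 ≤ 4 ∧ p.2.1 = q.2.1 ∧ p.2.2 ≠ q.2.2) ∨ (p.1 = 1 ∧ q.1 = 0 ∧ p.2.1 = q.2.1) ∨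
  (p.1 = 2 ∧ q.1 = 0) ∨ (p.1 = 3 ∧ q.1 = 4 ∧ p.2.1 = q.2.1) ∨
  (p.1 = 5 ∧ q.1 = 0 ∧ q.2.1 / 4 = p.2.1) ∨ (p.1 = 3 ∧ q.1 = 0 ∧ I p.2.1 q.2.1)

def adj (I : ℕ → ℕ → Prop) (p q : T) : Prop := rel I p q ∨ rel I q p

def pr (N H t i : ℕ) : Prop := (t = 1 ∧ i < N) ∨ (t = 2 ∧ i = 0) ∨ ((t = 3 ∨ t = 4) ∧ i < H)

def ok (N H : ℕ) (p : T) : Prop :=
  (p.1 = 0 ∧ p.2.1 < N ∧ p.2.2 = 0) ∨ (pr N H p.1 p.2.1 ∧ p.2.2 < 2) ∨ (p.1 = 5 ∧ p.2.1 < 2 ∧ p.2.2 = 0)

def Good (N H : ℕ) (I : ℕ → ℕ → Prop) (P : T → Prop) : Prop :=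
  (∀ t i, pr N H t i → P (t, i, 0) ∨ P (t, i, 1)) ∧
  (∀ h < H, ∀ a < 2, ∀ b < 2, P (3, h, a) ∨ P (4, h, b) ∨ ∃ c, I h c ∧ P (0, c, 0)) ∧
  ∀ j < 2, P (5, j, 0) ∨ ∃ c, c / 4 = j ∧ P (0, c, 0)

section
variable {N H : ℕ} {I : ℕ → ℕ → Prop} {u v a : T}

lemma spl {A B C D : ℕ → Prop} {x y : Prop} (a1 : A 0 ∨ A 1) (a2 : B 0 ∨ B 1) (b1 : C 0 ∨ C 1)
    (b2 : D 0 ∨ D 1) (c1 : ¬ (A 0 ∧ C 0)) (c2 : ¬ (A 1 ∧ C 1)) (c3 : ¬ (B 0 ∧ D 0)) (c4 : ¬ (B 1 ∧ D 1))
    (d1 : ∀ i j : Fin 2, A i ∨ B j ∨ x) (d2 : ∀ i j : Fin 2, C i ∨ D j ∨ y) : x ∧ y := by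
  simp only [Fin.forall_fin_two, Fin.val_zero, Fin.val_one] at d1 d2
  grind

lemma k1 {t i : ℕ} (e : pr N H t i) (o : ok N H a) (d : ¬ (adj I (t, i, 0) a ↔ adj I (t, i, 1) a)) :
    a = (t, i, 0) ∨ a = (t, i, 1) := by
  refine by_contra fun g => d ?_
  simp only [ok, pr, Prod.ext_iff] at o g
  rcases e with ⟨rfl, -⟩ | ⟨rfl, -⟩ | ⟨rfl | rfl, -⟩ <;> by_cases c : I i a.2.1 <;> simp [adj, rel, c] <;>
    constructor <;> intro <;> omega

lemma k2 {j x y : ℕ} (o : ok N H a) (hx : x < 2) (hy : y < 2) (d : ¬ (adj I (3, j, x) a ↔ adj I (4, j, y) a)) :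
    a = (3, j, x) ∨ a = (4, j, y) ∨ (I j a.2.1 ∧ a = (0, a.2.1, 0)) := by
  simp only [adj, rel, ok, pr, Prod.ext_iff] at *
  grind

lemma k3 (o1 : ok N H u) (o2 : ok N H v) (c : u.1 = 5) (l : u.1 ≤ v.1) (a1 : a.1 = 0)
    (a2 : a.2.1 / 4 = u.2.1) (d : adj I v a) : u = v := by
  simp only [adj, rel, ok, pr, Prod.ext_iff] at *
  omega

lemma k4 (o1 : ok N H u) (o2 : ok N H v) (c : u.1 ≠ 5) (l : u.1 ≤ v.1) (e : u ≠ v) (a1 : a.2.1 = u.2.1)
    (a2 : a.1 = if u.1 < 2 then 1 else if u.1 = 2 then 2 else 4) (d : adj I v a) :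
    (u.1 = v.1 ∧ u.2.1 = v.2.1 ∧ 0 < u.1) ∨ (u.1 = 0 ∧ v.1 = 1) ∨ (u.1 = 3 ∧ v.1 = 4 ∧ u.2.1 = v.2.1) := by
  simp only [adj, rel, ok, pr, ne_eq, Prod.ext_iff] at *
  split_ifs at a2 <;> omega

lemma k5 {b : ℕ} (o1 : ok N H u) (o2 : ok N H v) (e : u ≠ v) (g : u.1 = v.1 ∧ u.2.1 = v.2.1) (hb : b < 2) :
    (u.1, u.2.1, b) = u ∨ (u.1, u.2.1, b) = v := by
  simp only [ok, pr, ne_eq, Prod.ext_iff, true_and] at *
  omega

end

section
variable {V : Type} {G : SimpleGraph V} {N H : ℕ} {I : ℕ → ℕ → Prop} {f : V → T}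
  (h1 : ∀ a c, G.Adj a c ↔ adj I (f a) (f c)) (h2 : ∀ p, (∃ a, f a = p) ↔ ok N H p)
  (h3 : f.Injective) (hN : 8 < N)
include h1 h2 h3 hN

lemma good_of {D : Set V} (h : LD G D) : Good N H I fun p => ∃ a ∈ D, f a = p := by
  have ex : ∀ p, ok N H p → ∃ a, f a = p := fun p => (h2 p).2
  have sep : ∀ p q, ok N H p → ok N H q → p ≠ q → (∃ a ∈ D, f a = p) ∨ (∃ a ∈ D, f a = q) ∨
      ∃ a ∈ D, ¬ (adj I p (f a) ↔ adj I q (f a)) := fun p q hp hq e => by
    obtain ⟨u, rfl⟩ := ex p hp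
    obtain ⟨v, rfl⟩ := ex q hq
    by_contra! c
    refine h.2 u (fun g => c.1 u g rfl) v (fun g => c.2.1 v g rfl) (fun g => e (by rw [g])) ?_
    ext a
    simp only [Set.mem_inter_iff, SimpleGraph.mem_neighborSet, h1]
    exact and_congr_left (c.2.2 a)
  refine ⟨fun t i e => ?_, fun j hj a ha b hb => ?_, fun j hj => ?_⟩
  · rcases sep (t, i, 0) (t, i, 1) (by simp [ok, e]) (by simp [ok, e]) (by simp) with c | c | ⟨a, c, d⟩
    exacts [Or.inl c, Or.inr c, (k1 e ((h2 _).1 ⟨a, rfl⟩) d).imp (fun e => ⟨a, c, e⟩) fun e => ⟨a, c, e⟩]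
  · rcases sep (3, j, a) (4, j, b) (by simp [ok, pr, *]) (by simp [ok, pr, *]) (by simp) with c | c | ⟨x, c, d⟩
    exacts [Or.inl c, Or.inr (Or.inl c), (k2 ((h2 _).1 ⟨x, rfl⟩) ha hb d).imp (fun e => ⟨x, c, e⟩)
      (Or.imp (fun e => ⟨x, c, e⟩) fun e => ⟨_, e.1, x, c, e.2⟩)]
  · obtain ⟨u, hu⟩ := ex (5, j, 0) (by simp [ok, hj])
    by_cases c : u ∈ D
    · exact Or.inl ⟨u, c, hu⟩
    obtain ⟨x, c, d⟩ := h.1 u c
    have := (h2 _).1 ⟨x, rfl⟩
    rw [h1, hu] at d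
    simp only [adj, rel, ok, pr] at d this
    exact Or.inr ⟨(f x).2.1, by grind, x, c, by ext <;> grind⟩

lemma ld_of {D : Set V} (h : Good N H I fun p => ∃ a ∈ D, f a = p) : LD G D := by
  have pair : ∀ u ∉ D, ∀ t i, pr N H t i → (∀ b < 2, f u = (t, i, b) ∨ adj I (f u) (t, i, b)) →
      ∃ a ∈ D, G.Adj u a ∧ (f a).1 = t ∧ (f a).2.1 = i := fun u hu t i e g => by
    obtain ⟨b, hb, a, c, d⟩ : ∃ b < 2, ∃ a ∈ D, f a = (t, i, b) :=
      (h.1 t i e).elim (fun c => ⟨0, by omega, c⟩) fun c => ⟨1, by omega, c⟩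
    exact ⟨a, c, by rw [h1, d]; exact (g b hb).resolve_left fun e => hu (h3 (e.trans d.symm) ▸ c), by simp [d]⟩
  have home : ∀ u ∉ D, (f u).1 ≠ 5 → ∃ a ∈ D, G.Adj u a ∧ (f a).2.1 = (f u).2.1 ∧
      (f a).1 = if (f u).1 < 2 then 1 else if (f u).1 = 2 then 2 else 4 := fun u hu e => by
    have := (h2 _).1 ⟨u, rfl⟩
    obtain ⟨a, a1, a2, a3, a4⟩ := pair u hu (if (f u).1 < 2 then 1 else if (f u).1 = 2 then 2 else 4)
      (f u).2.1 (by unfold ok pr at *; split_ifs <;> omega) fun b hb => by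
        simp only [adj, rel, ok, pr, Prod.ext_iff] at *; split_ifs <;> simp <;> omega
    exact ⟨a, a1, a2, a4, a3⟩
  have five : ∀ u ∉ D, (f u).1 = 5 → ∃ a ∈ D, G.Adj u a ∧ (f a).1 = 0 ∧ (f a).2.1 / 4 = (f u).2.1 :=
    fun u hu e => by
      have := (h2 _).1 ⟨u, rfl⟩
      rcases h.2.2 (f u).2.1 (by unfold ok pr at *; omega) with ⟨a, c, d⟩ | ⟨c, c1, a, c2, d⟩
      · exact absurd (h3 (a₂ := u) (d.trans (by unfold ok pr at this; ext <;> simp <;> omega)) ▸ c) hu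
      · exact ⟨a, c2, by simp [h1, d, adj, rel, e, c1], by simp [d, c1]⟩
  have key : ∀ u ∉ D, ∀ v ∉ D, u ≠ v → (f u).1 ≤ (f v).1 → ∃ a ∈ D, ¬ (G.Adj u a ↔ G.Adj v a) :=
    fun u hu v hv e l => by
      have o1 := (h2 _).1 ⟨u, rfl⟩
      have o2 := (h2 _).1 ⟨v, rfl⟩
      have e' : f u ≠ f v := fun c => e (h3 c)
      by_contra! c
      by_cases c5 : (f u).1 = 5
      · obtain ⟨a, a1, a2, a3, a4⟩ := five u hu c5
        exact e' (k3 o1 o2 c5 l a3 a4 (by rwa [c a a1, h1] at a2))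
      obtain ⟨a, a1, a2, a3, a4⟩ := home u hu c5
      rw [c a a1, h1] at a2
      rcases k4 o1 o2 c5 l e' a3 a4 a2 with g | g | g
      · have : ∀ b < 2, ¬ ∃ x ∈ D, f x = ((f u).1, (f u).2.1, b) := by
          rintro b hb ⟨x, x1, x2⟩
          exact (x2 ▸ k5 o1 o2 e' ⟨g.1, g.2.1⟩ hb :).elim (fun y => hu (h3 y ▸ x1)) fun y => hv (h3 y ▸ x1)
        exact (h.1 _ _ (by unfold ok pr at *; omega)).elim (this 0 (by omega)) (this 1 (by omega))
      · obtain ⟨x, x1, x2, x3, -⟩ := pair u hu 2 0 (by simp [pr]) (by simp [adj, rel, g.1])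
        rw [c x x1, h1] at x2
        simp [adj, rel, g.2, x3] at x2
      · rcases h.2.1 (f u).2.1 (by unfold ok pr at *; omega) (f u).2.2 (by unfold ok pr at *; omega)
          (f v).2.2 (by unfold ok pr at *; omega) with ⟨x, x1, x2⟩ | ⟨x, x1, x2⟩ | ⟨k, k1, x, x1, x2⟩
        · exact hu (h3 (a₂ := u) (by rw [x2, ← g.1]) ▸ x1)
        · exact hv (h3 (a₂ := v) (by rw [x2, ← g.2.1, g.2.2]) ▸ x1)
        · simpa [h1, adj, rel, x2, g.1, g.2.1, k1] using c x x1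
  refine ⟨fun u hu => ?_, fun u hu v hv e c => ?_⟩
  · by_cases c : (f u).1 = 5
    · exact let ⟨a, b, c, _⟩ := five u hu c; ⟨a, b, c⟩
    · exact let ⟨a, b, c, _⟩ := home u hu c; ⟨a, b, c⟩
  · have : ∀ a ∈ D, (G.Adj u a ↔ G.Adj v a) := fun a ha => by
      simpa [ha] using Set.ext_iff.1 c a
    rcases le_total (f u).1 (f v).1 with l | l
    · exact let ⟨a, b, c⟩ := key u hu v hv e l; c (this a b)
    · exact let ⟨a, b, c⟩ := key v hv u hu e.symm l; c (this a b).symm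

omit h3 in
lemma conn (hI : ∀ h < H, ∃ c < N, I h c) : G.Connected := by
  have ex : ∀ p, ok N H p → ∃ a, f a = p := fun p => (h2 p).2
  obtain ⟨g, hg⟩ := ex (2, 0, 0) (by simp [ok, pr])
  have e0 : ∀ c < N, ∀ a, adj I (f a) (0, c, 0) → G.Reachable a g := fun c hc a e => by
    obtain ⟨x, hx⟩ := ex (0, c, 0) (by simp [ok, hc])
    exact ((h1 a x).2 (hx ▸ e)).reachable.trans ((h1 _ _).2 (by simp [hx, hg, adj, rel])).reachable
  have e1 : ∀ a, (f a).1 = 3 → G.Reachable a g := fun a e => by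
    have := (h2 _).1 ⟨a, rfl⟩
    obtain ⟨c, c1, c2⟩ := hI (f a).2.1 (by unfold ok pr at this; omega)
    exact e0 c c1 a (by simp [adj, rel, e, c2])
  refine (SimpleGraph.connected_iff_exists_forall_reachable _).2 ⟨g, fun a => .symm ?_⟩
  have := (h2 _).1 ⟨a, rfl⟩
  unfold ok pr at this
  obtain e | e | e | e | e | e : (f a).1 = 0 ∨ (f a).1 = 1 ∨ (f a).1 = 2 ∨ (f a).1 = 3 ∨ (f a).1 = 4 ∨
    (f a).1 = 5 := by omega
  · exact ((h1 _ _).2 (by simp [e, hg, adj, rel])).reachable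
  · exact e0 (f a).2.1 (by omega) a (by simp [adj, rel, e])
  · exact e0 0 (by omega) a (by simp [adj, rel, e])
  · exact e1 a e
  · obtain ⟨x, hx⟩ := ex (3, (f a).2.1, 0) (by simp [ok, pr]; omega)
    exact ((h1 a x).2 (by simp [hx, adj, rel, e])).reachable.trans (e1 x (by simp [hx]))
  · exact e0 (4 * (f a).2.1) (by omega) a (by simp [adj, rel, e])

lemma of_col (χ : ℕ → ℕ) (hχ : ∀ c, χ c < 2) (hI : ∀ h < H, ∀ b < 2, ∃ c < N, 8 ≤ c ∧ I h c ∧ χ c = b) :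
    CL G 9 := by
  let col : T → ℕ := fun p => if p.1 = 0 then (if p.2.1 < 8 then p.2.1 + 2 else χ p.2.1) else
    if p.1 = 5 then 1 - p.2.1 else p.2.2
  have lt : ∀ a, col (f a) < 10 := fun a => by
    have := (h2 _).1 ⟨a, rfl⟩
    have := hχ (f a).2.1
    simp only [col, ok, pr] at *; split_ifs <;> omega
  let c : V → Fin 10 := fun a => ⟨col (f a), lt a⟩
  have m : ∀ (i : Fin 10) p, (∃ a ∈ c ⁻¹' {i}, f a = p) ↔ ok N H p ∧ col p = i := fun i p => by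
    simp only [← h2, c, Set.mem_preimage, Set.mem_singleton_iff, Fin.ext_iff]; grind
  have g : ∀ i j : Fin 10, i.1 < 2 → 2 ≤ j.1 → (j.1 - 2) / 4 = i → LD G (c ⁻¹' {i} ∪ c ⁻¹' {j}) :=
    fun i j a b e => by
      have := j.2
      refine ld_of h1 h2 h3 hN ?_
      simp only [Good, Set.mem_union, or_and_right, exists_or, m]
      refine ⟨fun t k e => ?_, fun h hh _ _ _ _ => Or.inr (Or.inr ?_), fun k hk => ?_⟩
      · simp only [ok, e, col]; unfold pr at e; split_ifs <;> simp <;> omega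
      · obtain ⟨x, x1, x2, x3, x4⟩ := hI h hh i a
        exact ⟨x, x3, Or.inl ⟨by simp [ok, x1], by simp [col, x4]; omega⟩⟩
      · by_cases d : k = i
        · exact Or.inr ⟨j - 2, by omega, Or.inr ⟨by simp [ok]; omega, by
            simp [col, show j.1 - 2 < 8 by omega]; omega⟩⟩
        · exact Or.inl (Or.inl ⟨by simp [ok, hk], by simp [col]; omega⟩)
  refine ⟨10, by omega, c, fun i => ?_, fun i => ⟨fun e => ?_, ?_⟩⟩
  · have := i.2
    obtain ⟨a, a1, -⟩ := (m i (if i.1 < 2 then (2, 0, i) else (0, i - 2, 0))).2 (by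
      split_ifs <;> simp [ok, pr, col, show i.1 - 2 < 8 by omega] <;> omega)
    exact ⟨a, a1⟩
  · have e := good_of h1 h2 h3 hN e
    simp only [Good, m] at e
    by_cases d : i.1 < 2
    · rcases e.2.2 i d with e | ⟨x, x1, -, e⟩
      · simp [col] at e; omega
      · simp [col, show x < 8 by omega] at e; omega
    · have := e.1 2 0 (by simp [pr])
      simp [col] at this; omega
  · have := i.2
    by_cases d : i.1 < 2
    · exact ⟨⟨4 * i + 2, by omega⟩, by simp [Fin.ext_iff]; omega, g _ _ d (by simp) (by simp)⟩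
    · exact ⟨⟨(i - 2) / 4, by omega⟩, by simp [Fin.ext_iff]; omega, by
        rw [Set.union_comm]; exact g _ _ (by simp; omega) (by omega) rfl⟩

lemma to_col (hI : ∀ h, ∃ l : List ℕ, l.length ≤ 4 ∧ ∀ c, I h c → c ∈ l) (h : CL G 9) :
    ∃ P Q : ℕ → Prop, (∀ c, ¬ (P c ∧ Q c)) ∧ ∀ h < H, (∃ c, I h c ∧ P c) ∧ ∃ c, I h c ∧ Q c := by
  classical
  obtain ⟨m, hm, c, -, h⟩ := h
  let S := fun i p => ∃ a ∈ c ⁻¹' {i}, f a = p
  have u : ∀ i j p, S i p → S j p → i = j := by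
    rintro i j p ⟨a, rfl, rfl⟩ ⟨b, rfl, e⟩; rw [h3 e]
  let co := fun i j => Good N H I fun p => S i p ∨ S j p
  have c1 : ∀ i, ¬ Good N H I (S i) ∧ ∃ j, co i j := fun i => ⟨fun g => (h i).1 (ld_of h1 h2 h3 hN g), by
    obtain ⟨j, -, g⟩ := (h i).2
    exact ⟨j, by simpa only [Set.mem_union, or_and_right, exists_or] using good_of h1 h2 h3 hN g⟩⟩
  obtain ⟨g0, e0⟩ := (h2 (2, 0, 0)).2 (by simp [ok, pr])
  obtain ⟨g1, e1⟩ := (h2 (2, 0, 1)).2 (by simp [ok, pr])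
  have c2 : ∀ i, i ≠ c g0 → i ≠ c g1 → co i (c g0) ∨ co i (c g1) := fun i a b => by
    obtain ⟨j, g⟩ := (c1 i).2
    have := (u i _ _ · ⟨g0, rfl, e0⟩)
    have := (u j _ _ · ⟨g0, rfl, e0⟩)
    have := (u i _ _ · ⟨g1, rfl, e1⟩)
    have := (u j _ _ · ⟨g1, rfl, e1⟩)
    have := g.1 2 0 (by simp [pr])
    clear_value S
    grind
  have star : ∀ A, ¬ ∀ i, i ≠ c g0 → i ≠ c g1 → co i A := fun A g => by
    obtain ⟨W, w1, w2⟩ : ∃ W : List T, W.length ≤ 6 ∧ ∀ i, co i A → ∃ p ∈ W, S i p := by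
      have := (c1 A).1
      simp only [Good, not_and_or, not_forall, not_or, not_exists] at this
      rcases this with ⟨t, i, a, b⟩ | ⟨k, a, x, a', y, b', d⟩ | ⟨k, a, b⟩
      · exact ⟨[(t, i, 0), (t, i, 1)], by simp, fun j e => by have := e.1 t i a; grind⟩
      · obtain ⟨l, l1, l2⟩ := hI k
        exact ⟨(3, k, x) :: (4, k, y) :: l.map fun c => (0, c, 0), by simp; omega, fun j e => by
          have := e.2.1 k a x a' y b'; grind⟩
      · refine ⟨(5, k, 0) :: (List.range 4).map fun c => (0, 4 * k + c, 0), by simp, fun j e => ?_⟩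
        rcases e.2.2 k a with e | ⟨x, x1, e⟩
        · grind
        · exact ⟨(0, x, 0), List.mem_cons_of_mem _ (List.mem_map.2 ⟨x % 4, by simp; omega, by
            simp; omega⟩), by grind⟩
    have : ∀ i, ∃ p, i ≠ c g0 → i ≠ c g1 → p ∈ W ∧ S i p := fun i => by
      by_cases a : i ≠ c g0 ∧ i ≠ c g1
      · exact let ⟨p, b⟩ := w2 i (g i a.1 a.2); ⟨p, fun _ _ => b⟩
      · exact ⟨(0, 0, 0), by tauto⟩
    choose q hq using this
    have a := Finset.card_le_card_of_injOn (s := Finset.univ \ {c g0, c g1}) (t := W.toFinset) q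
      (fun i hi => by simp at hi; simp [hq i hi.1 hi.2]) fun i hi j hj e => by
        simp at hi hj; exact u i j _ (hq i hi.1 hi.2).2 (e ▸ (hq j hj.1 hj.2).2)
    have := Finset.le_card_sdiff {c g0, c g1} Finset.univ
    have := Finset.card_le_two (a := c g0) (b := c g1)
    have := List.toFinset_card_le W
    simp only [Finset.card_univ, Fintype.card_fin] at *
    omega
  by_cases d : ∃ i j, co i (c g0) ∧ co j (c g1) ∧ i ≠ j ∧ i ≠ c g1 ∧ j ≠ c g0 ∧ c g0 ≠ c g1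
  · obtain ⟨i, j, a, b, d⟩ := d
    have dj : ∀ p, ¬ ((S i p ∨ S (c g0) p) ∧ (S j p ∨ S (c g1) p)) := fun p => by grind
    refine ⟨fun x => S i (0, x, 0) ∨ S (c g0) (0, x, 0), fun x => S j (0, x, 0) ∨ S (c g1) (0, x, 0),
      fun x => dj _, fun k hk => ?_⟩
    have a1 := a.1 3 k (by simp [pr, hk])
    have a2 := a.1 4 k (by simp [pr, hk])
    have b1 := b.1 3 k (by simp [pr, hk])
    have b2 := b.1 4 k (by simp [pr, hk])
    have a3 := a.2.1 k hk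
    have b3 := b.2.1 k hk
    exact spl (A := fun x => S i (3, k, x) ∨ S (c g0) (3, k, x)) (B := fun x => S i (4, k, x) ∨
      S (c g0) (4, k, x)) (C := fun x => S j (3, k, x) ∨ S (c g1) (3, k, x)) (D := fun x => S j (4, k, x) ∨
      S (c g1) (4, k, x)) a1 a2 b1 b2 (dj _) (dj _) (dj _) (dj _) (fun x y => a3 x x.2 y y.2) fun x y => b3 x x.2 y y.2
  · have a := star (c g0)
    have b := star (c g1)
    simp only [not_forall] at a b
    obtain ⟨j, j1, j2, j3⟩ := a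
    obtain ⟨i, i1, i2, i3⟩ := b
    have a := (c2 i i1 i2).resolve_right i3
    exact absurd ⟨i, j, a, (c2 j j1 j2).resolve_left j3, by rintro rfl; exact j3 a, i2, j1,
      fun e => i3 (e ▸ a)⟩ d

end

abbrev F := List (Lit × Lit × Lit)

def cd (l : Lit) : ℕ := 10 + 2 * l.1 + l.2.toNat

def mem (φ : F) (h : ℕ) : List ℕ :=
  if h < φ.length then (fun c => [8, cd c.1, cd c.2.1, cd c.2.2]) (φ.getD h ((0, false), (0, false), (0, false)))
  else [cd (h - φ.length, false), cd (h - φ.length, true)]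

instance (I : ℕ → ℕ → Prop) [DecidableRel I] : DecidableRel (adj I) := fun _ _ => by
  unfold adj rel; infer_instance

instance (N H : ℕ) : DecidablePred (ok N H) := fun _ => by unfold ok pr; infer_instance

def verts (φ : F) : List T :=
  (List.range 6 ×ˢ List.range (10 + 2 * size φ + φ.length) ×ˢ List.range 2).filter fun p =>
    decide (ok (10 + 2 * size φ) (φ.length + size φ) p)

def red (φ : F) : List (List Bool) := mat (verts φ) fun p q => decide (adj (fun h c => c ∈ mem φ h) p q)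

lemma red_pt : PT red := by
  have a : PT fun z : F × ℕ => mem z.1 z.2 := by
    unfold mem cd; exact PP.ite (by fun_prop) (by fun_prop) (by fun_prop)
  have b : PP fun z : F × T × T => rel (fun h c => c ∈ mem z.1 h) z.2.1 z.2.2 := by unfold rel; fun_prop
  unfold red verts
  refine PT.mat (PT.filter (PP.decide ?_) (by fun_prop)) (PP.decide (b.or ?_))
  · unfold ok pr; fun_prop
  · exact b.comp (f := fun z : F × T × T => (z.1, z.2.2, z.2.1)) (by fun_prop)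

lemma red_iff (φ : F) : Sat3 φ ↔ LDC (red φ) 9 := by
  classical
  obtain ⟨g, f, h1, h2, h3, -⟩ := graph_kit (verts φ) (adj fun h c => c ∈ mem φ h) (fun _ _ => Or.symm)
    (fun p => by simp only [adj, rel]; grind)
    ((List.nodup_range.product (List.nodup_range.product List.nodup_range)).filter _) (M := red φ) rfl
  have h2' : ∀ p, (∃ a, f a = p) ↔ ok (10 + 2 * size φ) (φ.length + size φ) p := by
    rintro ⟨a, b, c⟩
    simp only [h2, verts, List.mem_filter, List.mem_product, List.mem_range, decide_eq_true_eq]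
    simp only [ok, pr]; omega
  have lt : ∀ c ∈ φ, c.1.1 < size φ ∧ c.2.1.1 < size φ ∧ c.2.2.1 < size φ := by
    rintro ⟨⟨a, _⟩, ⟨b, _⟩, ⟨c, _⟩⟩ hc
    have := size_lt_of_mem hc
    simp at *; omega
  have m1 : ∀ h (e : h < φ.length), mem φ h = [8, cd φ[h].1, cd φ[h].2.1, cd φ[h].2.2] := fun h e => by
    simp [mem, e]
  have m2 : ∀ v, mem φ (φ.length + v) = [cd (v, false), cd (v, true)] := fun v => by simp [mem]
  constructor
  · rintro ⟨τ, h⟩
    have : ∀ l : Lit, l.1 < size φ → cd l < 10 + 2 * size φ ∧ 8 ≤ cd l ∧ 10 ≤ cd l ∧ (cd l - 10) / 2 = l.1 ∧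
        cd l % 2 = l.2.toNat := fun l hl => by have := l.2.toNat_le; unfold cd; omega
    have e : ∀ h < φ.length + size φ, ∀ b < 2, ∃ c < 10 + 2 * size φ, 8 ≤ c ∧ c ∈ mem φ h ∧
        (if 10 ≤ c ∧ c % 2 = (τ ((c - 10) / 2)).toNat then 1 else 0) = b := fun k hk b hb => by
      by_cases d : k < φ.length
      · have := lt _ (List.getElem_mem d)
        obtain rfl | rfl : b = 0 ∨ b = 1 := by omega
        · exact ⟨8, by omega, by simp [m1 k d]⟩
        · rcases h _ (List.getElem_mem d) with e | e | e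
          exacts [⟨cd φ[k].1, by simp [m1 k d, *]⟩, ⟨cd φ[k].2.1, by simp [m1 k d, *]⟩,
            ⟨cd φ[k].2.2, by simp [m1 k d, *]⟩]
      · obtain ⟨v, rfl⟩ : ∃ v, k = φ.length + v := ⟨k - φ.length, by omega⟩
        have a := this (v, false) (by simp; omega)
        have c := this (v, true) (by simp; omega)
        by_cases x : (τ v).toNat = b
        · exact ⟨cd (v, true), by cases e : τ v <;> simp [m2, a, c, ← x, e]⟩
        · exact ⟨cd (v, false), by cases e : τ v <;> simp [m2, a, c, e] at * <;> omega⟩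
    exact ⟨g, conn h1 h2' (by omega) fun k hk => let ⟨c, a, _, b, _⟩ := e k hk 0 (by omega); ⟨c, a, b⟩,
      of_col h1 h2' h3 (by omega) _ (fun c => by split_ifs <;> omega) e⟩
  · rintro ⟨-, -, h⟩
    obtain ⟨P, Q, a, b⟩ := to_col h1 h2' h3 (by omega) (fun k => ⟨mem φ k, by
      unfold mem; split_ifs <;> simp, fun _ h => h⟩) h
    wlog c : ¬ P 8 generalizing P Q
    · exact this Q P (fun x h => a x h.symm) (fun k hk => (b k hk).symm) fun e => a 8 ⟨not_not.1 c, e⟩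
    have : ∀ l : Lit, l.1 < size φ → P (cd l) → decide (P (cd (l.1, true))) = l.2 := by
      rintro ⟨v, _ | _⟩ hl e
      · have := (b (φ.length + v) (by simp at hl; omega)).2
        have := a (cd (v, false))
        have := a (cd (v, true))
        simp [m2] at *; tauto
      · simpa using e
    refine ⟨fun v => decide (P (cd (v, true))), fun x hx => ?_⟩
    obtain ⟨k, hk, rfl⟩ := List.getElem_of_mem hx
    have := (b k (by omega)).1
    have := lt _ hx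
    simp only [m1 k hk, List.mem_cons] at *
    grind

theorem result : NPHard (Lang fun z : List (List Bool) × ℕ => LDC z.1 z.2) ∧
    NPHard (Lang fun M => LDC M 9) :=
  ⟨(hard_sat3.red (r := fun φ => (red φ, 9)) (red_pt.pair (by fun_prop)) red_iff).npHard,
    (hard_sat3.red red_pt red_iff).npHard⟩

end Pool.Agent.Results.MP_722fe9_lc.NPHard
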